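import Pool.Agent.H28Dyadic.Final

open MeasureTheory Metric
open scoped ENNReal Pointwise

namespace Pool.Agent.Results.MP_6b2635_an.DimensionFree

universe u

/-- `ℝⁿ` with the Euclidean norm; its measure `volume` is `n`-dimensional Lebesgue measure. -/
abbrev Rn (n : ℕ) : Type := EuclideanSpace ℝ (Fin n)

/-- `B` is the closed Euclidean ball centred at the origin of Lebesgue measure `1`. -/
def IsB (n : ℕ) (B : Set (Rn n)) : Prop :=
  ∃ r : ℝ, 0 < r ∧ B = closedBall 0 r ∧ volume B = 1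

/-- The average `2^(-sn) ∫ |f(x+y)| dy` over `y` in `2^s B`, for a real number `s`. -/
noncomputable def avg {n : ℕ} {E : Type u} [NormedAddCommGroup E] (B : Set (Rn n))
    (f : Rn n → E) (s : ℝ) (x : Rn n) : ℝ≥0∞ :=
  (ENNReal.ofReal ((2 : ℝ) ^ (s * n)))⁻¹ * ∫⁻ y in ((2 : ℝ) ^ s) • B, ‖f (x + y)‖ₑ

/-- The maximal function over the dyadic dilates `2^k B`, `k` an integer. -/
noncomputable def dyadicMax {n : ℕ} {E : Type u} [NormedAddCommGroup E] (B : Set (Rn n))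
    (f : Rn n → E) (x : Rn n) : ℝ≥0∞ :=
  ⨆ k : ℤ, avg B f (k : ℝ) x

/-- The maximal function over the finer family of the dilates `2^(k/m) B`, `k` an integer. -/
noncomputable def rootMax {n : ℕ} {E : Type u} [NormedAddCommGroup E] (m : ℕ) (B : Set (Rn n))
    (f : Rn n → E) (x : Rn n) : ℝ≥0∞ :=
  ⨆ k : ℤ, avg B f ((k : ℝ) / m) x

/-- The constants `C` in `[0,∞]` with `|{M f > lam}| ≤ C lam⁻¹ ‖f‖₁` for all `f` in `L¹(ℝⁿ)` and all
`lam > 0`. -/
def Admissible (n : ℕ) : Set ℝ≥0∞ :=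
  {C | ∀ B : Set (Rn n), IsB n B → ∀ f : Rn n → ℝ, Integrable f → ∀ lam : ℝ, 0 < lam →
    volume {x | ENNReal.ofReal lam < dyadicMax B f x} ≤
      C * (ENNReal.ofReal lam)⁻¹ * ∫⁻ x, ‖f x‖ₑ}

/-- The weak type `(1,1)` constant `c_n`. -/
noncomputable def c (n : ℕ) : ℝ≥0∞ := sInf (Admissible n)

theorem exists_unique_B (n : ℕ) (hn : 1 ≤ n) : ∃! B : Set (Rn n), IsB n B := by
  have hn0 : n ≠ 0 := by omega
  have hv0 : volume (closedBall (0 : Rn n) 1) ≠ 0 := (measure_closedBall_pos _ _ one_pos).ne'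
  have hvt : volume (closedBall (0 : Rn n) 1) ≠ ∞ := measure_closedBall_lt_top.ne
  set v : ℝ := (volume (closedBall (0 : Rn n) 1)).toReal with hv
  have hv1 : 0 < v := ENNReal.toReal_pos hv0 hvt
  have hvol : ∀ r : ℝ, 0 ≤ r → volume (closedBall (0 : Rn n) r) = ENNReal.ofReal (r ^ n * v) := by
    intro r hr
    rw [Measure.addHaar_closedBall' volume (0 : Rn n) hr, finrank_euclideanSpace_fin,
      ENNReal.ofReal_mul (by positivity), hv, ENNReal.ofReal_toReal hvt]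
  have hone : ∀ r : ℝ, 0 ≤ r → (volume (closedBall (0 : Rn n) r) = 1 ↔ r ^ n = v⁻¹) := by
    intro r hr
    rw [hvol r hr, ENNReal.ofReal_eq_one]
    exact ⟨fun h => eq_inv_of_mul_eq_one_left h, fun h => by rw [h]; exact inv_mul_cancel₀ hv1.ne'⟩
  set r₀ : ℝ := (v⁻¹) ^ ((n : ℝ)⁻¹) with hr₀
  have hr0 : 0 < r₀ := Real.rpow_pos_of_pos (inv_pos.2 hv1) _
  have hrn : r₀ ^ n = v⁻¹ := Real.rpow_inv_natCast_pow (inv_pos.2 hv1).le hn0
  refine ⟨closedBall 0 r₀, ⟨r₀, hr0, rfl, (hone r₀ hr0.le).2 hrn⟩, ?_⟩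
  rintro B ⟨r, hr, rfl, h1⟩
  have h2 := (hone r hr.le).1 h1
  have h3 : r = r₀ := (pow_left_inj₀ hr.le hr0.le hn0).1 (h2.trans hrn.symm)
  rw [h3]

theorem avg_eq {n : ℕ} (hn : 1 ≤ n) {E : Type u} [NormedAddCommGroup E] {r : ℝ} (hr : 0 < r)
    (h1 : volume (closedBall (0 : Rn n) r) = 1) (f : Rn n → E) (s : ℝ) (x : Rn n) :
    avg (closedBall 0 r) f s x = (volume (ball (0 : Rn n) ((2 : ℝ) ^ s * r)))⁻¹ *
      ∫⁻ y in ball (0 : Rn n) ((2 : ℝ) ^ s * r), ‖f (x + y)‖ₑ := by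
  have hne : Nonempty (Fin n) := ⟨⟨0, hn⟩⟩
  have h2 : (0 : ℝ) < (2 : ℝ) ^ s := Real.rpow_pos_of_pos two_pos s
  have hset : ((2 : ℝ) ^ s) • closedBall (0 : Rn n) r = closedBall (0 : Rn n) ((2 : ℝ) ^ s * r) := by
    rw [smul_closedBall _ _ hr.le, smul_zero, Real.norm_of_nonneg h2.le]
  have hae : (ball (0 : Rn n) ((2 : ℝ) ^ s * r) : Set (Rn n)) =ᵐ[volume]
      (closedBall (0 : Rn n) ((2 : ℝ) ^ s * r) : Set (Rn n)) :=
    ae_eq_of_subset_of_measure_ge ball_subset_closedBall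
      (Measure.addHaar_closedBall_eq_addHaar_ball volume _ _).le
      measurableSet_ball.nullMeasurableSet measure_closedBall_lt_top.ne
  have hvol : volume (ball (0 : Rn n) ((2 : ℝ) ^ s * r)) = ENNReal.ofReal ((2 : ℝ) ^ (s * n)) := by
    rw [measure_congr hae, Measure.addHaar_closedBall_mul volume _ h2.le hr.le, h1, mul_one,
      finrank_euclideanSpace_fin, Real.rpow_mul two_pos.le, Real.rpow_natCast]
  rw [avg, hset, ← hvol, setLIntegral_congr hae]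

/-- The theorem for the dilates `2^(k + s₀) B`. -/
theorem shifted {C : ℝ}
    (hC : ∀ n : ℕ, 1 ≤ n → ∀ r : ℝ, 0 < r →
      ∀ f : EuclideanSpace ℝ (Fin n) → ℝ, Integrable f →
      ∀ t : ℝ, 0 < t →
        volume {x : EuclideanSpace ℝ (Fin n) |
          ENNReal.ofReal t <
            ⨆ k : ℤ, (volume (Metric.ball (0 : EuclideanSpace ℝ (Fin n)) ((2 : ℝ) ^ k * r)))⁻¹ *
              ∫⁻ y in Metric.ball (0 : EuclideanSpace ℝ (Fin n)) ((2 : ℝ) ^ k * r), ‖f (x + y)‖ₑ}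
          ≤ ENNReal.ofReal (C / t) * ∫⁻ x, ‖f x‖ₑ)
    {n : ℕ} (hn : 1 ≤ n) {B : Set (Rn n)} (hB : IsB n B) {E : Type u} [NormedAddCommGroup E]
    (f : Rn n → E) (hf : Integrable f) (lam : ℝ) (hlam : 0 < lam) (s₀ : ℝ) :
    volume {x | ENNReal.ofReal lam < ⨆ k : ℤ, avg B f ((k : ℝ) + s₀) x} ≤
      ENNReal.ofReal (C / lam) * ∫⁻ x, ‖f x‖ₑ := by
  obtain ⟨r, hr, rfl, h1⟩ := hB
  have h2 : (0 : ℝ) < (2 : ℝ) ^ s₀ := Real.rpow_pos_of_pos two_pos s₀
  have h3 := hC n hn ((2 : ℝ) ^ s₀ * r) (by positivity) (fun x => ‖f x‖) hf.norm lam hlam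
  have h4 : ∀ (k : ℤ) (x : Rn n), avg (closedBall 0 r) f ((k : ℝ) + s₀) x =
      (volume (ball (0 : Rn n) ((2 : ℝ) ^ k * ((2 : ℝ) ^ s₀ * r))))⁻¹ *
      ∫⁻ y in ball (0 : Rn n) ((2 : ℝ) ^ k * ((2 : ℝ) ^ s₀ * r)), ‖‖f (x + y)‖‖ₑ := by
    intro k x
    rw [avg_eq hn hr h1, Real.rpow_add two_pos, Real.rpow_intCast, mul_assoc]
    simp only [enorm_norm]
  simp only [h4]
  simpa only [enorm_norm] using h3

/-- Full answer to Q1. -/
theorem result :
    (∀ n : ℕ, 1 ≤ n → ∃! B : Set (Rn n), IsB n B) ∧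
    (∀ n : ℕ, 1 ≤ n → IsLeast (Admissible n) (c n)) ∧
    (⨆ n : {n : ℕ // 1 ≤ n}, c n) < ∞ ∧
    ∃ C : ℝ, 0 < C ∧ ∀ n : ℕ, 1 ≤ n → ∀ B : Set (Rn n), IsB n B →
      ∀ (E : Type u) [NormedAddCommGroup E] (f : Rn n → E), Integrable f →
      ∀ lam : ℝ, 0 < lam →
        volume {x | ENNReal.ofReal lam < dyadicMax B f x} ≤
          ENNReal.ofReal (C / lam) * ∫⁻ x, ‖f x‖ₑ ∧
        ∀ m : ℕ, 1 ≤ m → volume {x | ENNReal.ofReal lam < rootMax m B f x} ≤
          ENNReal.ofReal (m * C / lam) * ∫⁻ x, ‖f x‖ₑ := by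
  obtain ⟨C, hC0, hC⟩ := H28D.final
  have hdy : ∀ n : ℕ, 1 ≤ n → ∀ B : Set (Rn n), IsB n B →
      ∀ (E : Type u) [NormedAddCommGroup E] (f : Rn n → E), Integrable f →
      ∀ lam : ℝ, 0 < lam → volume {x | ENNReal.ofReal lam < dyadicMax B f x} ≤
          ENNReal.ofReal (C / lam) * ∫⁻ x, ‖f x‖ₑ := by
    intro n hn B hB E _ f hf lam hlam
    have h := shifted hC hn hB f hf lam hlam 0
    simp only [add_zero] at h
    exact h
  have hadm : ∀ n : ℕ, 1 ≤ n → ENNReal.ofReal C ∈ Admissible n := by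
    intro n hn B hB f hf lam hlam
    have h := shifted hC hn hB f hf lam hlam 0
    simp only [add_zero] at h
    rwa [ENNReal.ofReal_div_of_pos hlam, div_eq_mul_inv] at h
  refine ⟨exists_unique_B, ?_, ?_, C, hC0, ?_⟩
  · intro n hn
    refine ⟨?_, fun K hK => sInf_le hK⟩
    intro B hB f hf lam hlam
    set K : ℝ≥0∞ := (ENNReal.ofReal lam)⁻¹ * ∫⁻ x, ‖f x‖ₑ with hK
    have hKt : K ≠ ∞ := ENNReal.mul_ne_top
      (ENNReal.inv_ne_top.2 (ENNReal.ofReal_pos.2 hlam).ne') hf.2.ne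
    rw [mul_assoc, ← hK]
    have hle : ∀ D ∈ Admissible n,
        volume {x | ENNReal.ofReal lam < dyadicMax B f x} ≤ D * K := by
      intro D hD
      have := hD B hB f hf lam hlam
      rwa [mul_assoc] at this
    by_cases hK0 : K = 0
    · have := hle _ (hadm n hn)
      rw [hK0, mul_zero] at this ⊢
      exact this
    · rw [← ENNReal.div_le_iff hK0 hKt]
      exact le_sInf fun D hD => (ENNReal.div_le_iff hK0 hKt).2 (hle D hD)
  · refine lt_of_le_of_lt (iSup_le fun n => ?_) (ENNReal.ofReal_lt_top (r := C))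
    exact sInf_le (hadm n.1 n.2)
  · intro n hn B hB E _ f hf lam hlam
    refine ⟨hdy n hn B hB E f hf lam hlam, fun m hm => ?_⟩
    have hm0 : (0 : ℝ) < m := by exact_mod_cast hm
    have hsub : {x | ENNReal.ofReal lam < rootMax m B f x} ⊆
        ⋃ i ∈ Finset.range m, {x | ENNReal.ofReal lam < ⨆ k : ℤ, avg B f ((k : ℝ) + (i : ℝ) / m) x} := by
      intro x hx
      have hx' : ENNReal.ofReal lam < ⨆ k : ℤ, avg B f ((k : ℝ) / m) x := hx
      obtain ⟨k, hk⟩ := lt_iSup_iff.1 hx'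
      have hm' : (0 : ℤ) < m := by exact_mod_cast hm
      have hmod := Int.emod_nonneg k hm'.ne'
      have hmod2 := Int.emod_lt_of_pos k hm'
      refine Set.mem_biUnion (x := (k % m).toNat) ?_ ?_
      · simp only [Finset.coe_range, Set.mem_Iio]
        omega
      · have h5 : (k : ℝ) / m = ((k / m : ℤ) : ℝ) + (((k % m).toNat : ℕ) : ℝ) / m := by
          have h6 : (((k % m).toNat : ℕ) : ℝ) = ((k % m : ℤ) : ℝ) := by
            have h7 : (((k % m).toNat : ℕ) : ℤ) = k % m := Int.toNat_of_nonneg hmod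
            exact_mod_cast congrArg (Int.cast : ℤ → ℝ) h7
          have h8 : ((k % m : ℤ) : ℝ) + m * ((k / m : ℤ) : ℝ) = k := by
            exact_mod_cast congrArg (Int.cast : ℤ → ℝ) (Int.emod_add_mul_ediv k m)
          rw [h6, ← h8]
          field_simp
          ring
        show ENNReal.ofReal lam < _
        rw [h5] at hk
        exact lt_of_lt_of_le hk (le_iSup (fun j : ℤ => avg B f ((j : ℝ) +
          (((k % m).toNat : ℕ) : ℝ) / m) x) (k / m))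
    calc volume {x | ENNReal.ofReal lam < rootMax m B f x}
        ≤ volume (⋃ i ∈ Finset.range m,
            {x | ENNReal.ofReal lam < ⨆ k : ℤ, avg B f ((k : ℝ) + (i : ℝ) / m) x}) :=
          measure_mono hsub
      _ ≤ ∑ i ∈ Finset.range m, volume
            {x | ENNReal.ofReal lam < ⨆ k : ℤ, avg B f ((k : ℝ) + (i : ℝ) / m) x} :=
          measure_biUnion_finset_le _ _
      _ ≤ ∑ _i ∈ Finset.range m, ENNReal.ofReal (C / lam) * ∫⁻ x, ‖f x‖ₑ :=
          Finset.sum_le_sum fun i _ => shifted hC hn hB f hf lam hlam _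
      _ = ENNReal.ofReal (m * C / lam) * ∫⁻ x, ‖f x‖ₑ := by
          rw [Finset.sum_const, Finset.card_range, nsmul_eq_mul, ← mul_assoc, mul_div_assoc,
            ENNReal.ofReal_mul hm0.le, ENNReal.ofReal_natCast]

end Pool.Agent.Results.MP_6b2635_an.DimensionFree
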